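import Pool.Agent.H109Z.Frog.Spec

set_option autoImplicit false

/-! Annealing: the quenched laws of the comparison model average to `nu`. -/

namespace Pool.Agent.H109Z.FrogGW

open MeasureTheory Function Finset
open scoped ENNReal NNReal

/-! ### locality of the one-step kernel -/

lemma ann_Cs_congr {g g' : ℕ → ℝ} {k : ℕ} (h : ∀ i < k, g i = g' i) : Cs g k = Cs g' k :=
  Finset.sum_congr rfl fun i hi => h i (mem_range.1 hi)

lemma ann_lead_congr {g g' : ℕ → ℝ} {k : ℕ} (h : ∀ i < k, g i = g' i) :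
    lead g k = lead g' k := by
  have hC := ann_Cs_congr h
  have hs : ∑ i ∈ range k, ENNReal.ofReal (g i / Cs g k) =
      ∑ i ∈ range k, ENNReal.ofReal (g' i / Cs g' k) :=
    Finset.sum_congr rfl fun i hi => by rw [h i (mem_range.1 hi), hC]
  unfold lead
  by_cases h1 : ∑ i ∈ range k, ENNReal.ofReal (g i / Cs g k) = 1
  · rw [dif_pos h1, dif_pos (hs ▸ h1)]
    ext i
    simp only [PMF.ofFinset_apply]
    split_ifs with hi
    · rw [h i (mem_range.1 hi), hC]
    · rfl
  · rw [dif_neg h1, dif_neg (hs ▸ h1)]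

lemma ann_row_congr {g g' : ℕ → ℝ} {k : ℕ} (h : ∀ i < k, g i = g' i) (m : ℝ) :
    row g k m = row g' k m := by
  unfold row
  refine piL_congr _ fun i hi => ?_
  rw [h i (List.mem_range.1 hi), ann_Cs_congr h]

lemma ann_rows_congr {g g' m m' : ℕ → ℝ} {k : ℕ} (h : ∀ i < k, g i = g' i)
    (hm : ∀ i < k, m i = m' i) : rows g k m = rows g' k m' := by
  unfold rows
  refine piL_congr _ fun i hi => ?_
  rw [hm i (List.mem_range.1 hi), ann_row_congr h]

lemma ann_stepM_congr (lam : ℝ) (h : ℕ) {g g' m m' : ℕ → ℝ} {k : ℕ} (hg : ∀ i < k, g i = g' i)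
    (hm : ∀ i < k, m i = m' i) : stepM lam h g m k = stepM lam h g' m' k := by
  unfold stepM
  rw [ann_lead_congr hg, ann_Cs_congr hg]
  congr 1
  funext c
  rw [ann_rows_congr (m := update m c (lam + m c)) (m' := update m' c (lam + m' c)) hg]
  · congr 1
    funext r
    rw [Finset.sum_congr rfl fun a ha => hm a (mem_range.1 (Rch_subset k c r ha))]
  · intro i hi
    by_cases hic : i = c
    · subst hic
      simp [hm i hi]
    · simp [update_of_ne hic, hm i hi]

/-! ### coding finite parts of the tree -/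

/-- a code of the tree down to depth `h` -/
def annCode : ℕ → (V → ℕ) → ℕ
  | 0, _ => 0
  | h + 1, Z => Encodable.encode ((List.range (Z [])).map fun i => annCode h (sh [i] Z))

lemma ann_disc_root : Disc fun Z : V → ℕ => Z [] :=
  Disc.of_measurable (measurable_pi_apply _)

lemma ann_disc_list {c : (V → ℕ) → ℕ} (hc : Disc c) : ∀ l : List ℕ,
    Disc fun Z : V → ℕ => l.map fun i => c (sh [i] Z)
  | [] => Disc.const _
  | j :: l => by
    have h1 : Disc fun Z : V → ℕ => c (sh [j] Z) := hc.comp (measurable_sh _)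
    exact h1.bind (g := fun b Z => b :: l.map fun i => c (sh [i] Z)) fun b =>
      (ann_disc_list hc l).map (fun t => b :: t)

lemma ann_disc_code : ∀ h, Disc (annCode h)
  | 0 => Disc.const _
  | h + 1 => ann_disc_root.bind
      (g := fun k Z => Encodable.encode ((List.range k).map fun i => annCode h (sh [i] Z)))
      fun k => (ann_disc_list (ann_disc_code h) (List.range k)).map Encodable.encode

lemma ann_code_succ {h : ℕ} {Z Z' : V → ℕ} (e : annCode (h + 1) Z = annCode (h + 1) Z') :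
    Z [] = Z' [] ∧ ∀ i < Z [], annCode h (sh [i] Z) = annCode h (sh [i] Z') := by
  have e1 := Encodable.encode_injective e
  have e2 : Z [] = Z' [] := by simpa using congrArg List.length e1
  refine ⟨e2, fun i hi => ?_⟩
  rw [← e2] at e1
  exact List.map_inj_left.1 e1 i (List.mem_range.2 hi)

lemma ann_code_factor (lam : ℝ) : ∀ (h : ℕ) (Z Z' : V → ℕ), annCode h Z = annCode h Z' →
    gh h Z = gh h Z' ∧ PM lam h Z = PM lam h Z'
  | 0, _, _, _ => ⟨rfl, rfl⟩
  | h + 1, Z, Z', e => by
    obtain ⟨e1, e2⟩ := ann_code_succ e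
    have hg : ∀ i < Z [], gh h (sh [i] Z) = gh h (sh [i] Z') := fun i hi =>
      (ann_code_factor lam h _ _ (e2 i hi)).1
    have hP : ∀ i < Z [], PM lam h (sh [i] Z) = PM lam h (sh [i] Z') := fun i hi =>
      (ann_code_factor lam h _ _ (e2 i hi)).2
    constructor
    · simp only [gh]
      rw [← e1, ann_Cs_congr (g := fun i => gh h (sh [i] Z)) (g' := fun i => gh h (sh [i] Z')) hg]
    · simp only [PM]
      rw [← e1, piL_congr (P := fun i => PM lam h (sh [i] Z)) (P' := fun i => PM lam h (sh [i] Z'))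
        _ fun i hi => hP i (List.mem_range.1 hi)]
      congr 1
      funext m
      exact ann_stepM_congr lam h hg fun _ _ => rfl

lemma ann_meas_of_code {Ω β γ : Type*} [MeasurableSpace Ω] [MeasurableSpace γ] [Countable β]
    [Nonempty Ω] {c : Ω → β} (hc : Disc c) {Φ : Ω → γ} (h : ∀ a b, c a = c b → Φ a = Φ b) :
    Measurable Φ := by
  have : Φ = fun ω => (fun (n : β) (_ : Ω) => Φ (invFun c n)) (c ω) ω := by
    funext ω
    exact h _ _ (invFun_eq ⟨ω, rfl⟩).symm
  rw [this]
  exact hc.measurable (g := fun (n : β) (_ : Ω) => Φ (invFun c n)) fun _ => measurable_const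

/-! ### expectations -/

lemma ann_lint_EL {α Ω : Type*} [MeasurableSpace Ω] (P : PMF α) (ν : Measure Ω)
    (f : α → Ω → ℝ≥0∞) (hf : ∀ a, Measurable (f a)) :
    ∫⁻ y, EL P (fun a => f a y) ∂ν = EL P fun a => ∫⁻ y, f a y ∂ν := by
  have e : ∀ g : α → ℝ≥0∞, EL P g = ∑' a : P.support, P a * g a := by
    intro g
    refine (tsum_subtype_eq_of_support_subset (s := P.support) (f := fun a => P a * g a) ?_).symm
    intro a ha hP
    exact ha (by simp [hP])
  have : Countable P.support := P.support_countable.to_subtype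
  simp only [e]
  rw [lintegral_tsum (f := fun (a : P.support) y => P a * f a y)
    fun a => ((hf a).const_mul _).aemeasurable]
  congr 1
  funext a
  exact lintegral_const_mul _ (hf a)

lemma ann_piL_default {ι α : Type*} [DecidableEq ι] (P : ι → PMF α) (d d' : ι → α) :
    ∀ (l : List ι) (G : (ι → α) → ℝ≥0∞), (∀ x x', (∀ i ∈ l, x i = x' i) → G x = G x') →
    EL (piL P d l) G = EL (piL P d' l) G := by
  intro l
  induction l with
  | nil =>
    intro G hG
    simp only [piL, EL_pure]
    exact hG _ _ fun i hi => by simp at hi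
  | cons j l ih =>
    intro G hG
    rw [EL_piL_cons, EL_piL_cons]
    refine ih _ fun x x' hx => ?_
    congr 1
    funext a
    refine hG _ _ fun i hi => ?_
    by_cases hij : i = j
    · subst hij; simp
    · rw [update_of_ne hij, update_of_ne hij]
      exact hx i (by simpa [hij] using hi)

lemma ann_piL_map {ι α β : Type*} [DecidableEq ι] (P : ι → PMF α) (φ : ι → α → β) (d : ι → α) :
    ∀ (l : List ι) (G : (ι → β) → ℝ≥0∞),
    EL (piL (fun i => (P i).map (φ i)) (fun i => φ i (d i)) l) G =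
      EL (piL P d l) fun m => G fun i => φ i (m i) := by
  intro l
  induction l with
  | nil => intro G; simp only [piL, EL_pure]
  | cons j l ih =>
    intro G
    rw [EL_piL_cons, EL_piL_cons, ih]
    congr 1
    funext x
    rw [EL_map]
    congr 1
    funext a
    congr 1
    funext i
    by_cases hij : i = j
    · subst hij; simp
    · simp [update_of_ne hij]

section children
variable {α : Type*} (μ : Measure ℕ) [IsProbabilityMeasure μ] {c : (V → ℕ) → ℕ}
  {Q : (V → ℕ) → PMF α} {ν : PMF α}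

lemma ann_meas_children (hc : Disc c) (hQ : ∀ Z Z', c Z = c Z' → Q Z = Q Z') (d : ℕ → α)
    (l : List ℕ) (G : (ℕ → α) → ℝ≥0∞) :
    Measurable fun Z : V → ℕ => EL (piL (fun i => Q (sh [i] Z)) d l) G := by
  refine ann_meas_of_code (ann_disc_list hc l) fun Z Z' e => ?_
  rw [piL_congr (P := fun i => Q (sh [i] Z)) (P' := fun i => Q (sh [i] Z')) d
    fun i hi => hQ _ _ (List.map_inj_left.1 e i hi)]

lemma ann_children (hc : Disc c) (hQ : ∀ Z Z', c Z = c Z' → Q Z = Q Z')
    (hν : ∀ f : α → ℝ≥0∞, ∫⁻ Z, EL (Q Z) f ∂(GW0 μ) = EL ν f) (d : ℕ → α) (k : ℕ) :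
    ∀ l : List ℕ, l.Nodup → ∀ G : (ℕ → α) → ℝ≥0∞,
    ∫⁻ Z, (if Z [] = k then EL (piL (fun i => Q (sh [i] Z)) d l) G else 0) ∂(GW0 μ) =
      μ {k} * EL (piL (fun _ => ν) d l) G := by
  have hk : MeasurableSet {Z : V → ℕ | Z [] = k} := ann_disc_root k
  intro l
  induction l with
  | nil =>
    intro _ G
    simp only [piL, EL_pure]
    have e0 : GW0 μ {Z : V → ℕ | Z [] = k} = μ {k} :=
      (measurePreserving_eval_infinitePi (fun _ : V => μ) []).measure_preimage
        (s := {k}) MeasurableSet.of_discrete.nullMeasurableSet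
    rw [← e0, mul_comm, ← lintegral_indicator_const hk]
    congr 1
    funext Z
    by_cases h : Z [] = k <;> simp [h]
  | cons j l ih =>
    intro hl G
    rw [List.nodup_cons] at hl
    have hm : Measurable fun Z : V → ℕ =>
        (if Z [] = k then EL (piL (fun i => Q (sh [i] Z)) d (j :: l)) G else 0) :=
      Measurable.ite hk (ann_meas_children hc hQ d _ G) measurable_const
    have hr := lint_resample (mp_mix μ (Dw [j])) hm
    unfold GW0 at ih hν ⊢
    rw [hr, EL_piL_cons, ← ih hl.2]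
    congr 1
    funext Z
    simp only [mix_root]
    by_cases h : Z [] = k
    · simp only [h, if_true, EL_piL_cons, sh_mix_self]
      have e : ∀ Y, piL (fun i => Q (sh [i] (mix (Dw [j]) Z Y))) d l =
          piL (fun i => Q (sh [i] Z)) d l := fun Y =>
        piL_congr d fun i hi => by rw [sh_mix_ne (by rintro rfl; exact hl.1 hi)]
      simp only [e]
      have hm1 : ∀ f : α → ℝ≥0∞, Measurable fun Y : V → ℕ => EL (Q Y) f := fun f =>
        ann_meas_of_code hc fun Y Y' e => by rw [hQ Y Y' e]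
      rw [ann_lint_EL _ _ (fun x Y => EL (Q (sh [j] Y)) fun a => G (update x j a))
        fun x => (hm1 _).comp (measurable_sh _)]
      congr 1
      funext x
      rw [(mp_sh μ [j]).lintegral_comp (hm1 fun a => G (update x j a)), hν]
    · simp [h]

end children

/-- part 1 at height `h` gives part 2 at height `h` -/
lemma ann_part2 (μ : Measure ℕ) [IsProbabilityMeasure μ] (lam : ℝ) (h : ℕ)
    (h1 : ∀ f : ℝ × ℝ → ℝ≥0∞,
      ∫⁻ Z, EL (PM lam h Z) (fun m => f (gh h Z, m)) ∂(GW0 μ) = EL (nu μ.toPMF lam h) f)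
    (F : ℕ → (ℕ → ℝ × ℝ) → ℝ≥0∞) (hF : ∀ k x x', (∀ i < k, x i = x' i) → F k x = F k x') :
    Measurable (fun Z : V → ℕ =>
      EL (piL (fun i => PM lam h (sh [i] Z)) (fun _ => 0) (List.range (Z []))) fun m =>
        F (Z []) fun i => (gh h (sh [i] Z), m i)) ∧
    ∫⁻ Z, EL (piL (fun i => PM lam h (sh [i] Z)) (fun _ => 0) (List.range (Z [])))
      (fun m => F (Z []) fun i => (gh h (sh [i] Z), m i)) ∂(GW0 μ) =
      EZ μ.toPMF (nu μ.toPMF lam h) F := by
  set Q : (V → ℕ) → PMF (ℝ × ℝ) := fun Z => (PM lam h Z).map fun m => (gh h Z, m) with hQd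
  have hQ : ∀ Z Z', annCode h Z = annCode h Z' → Q Z = Q Z' := fun Z Z' e => by
    obtain ⟨e1, e2⟩ := ann_code_factor lam h Z Z' e
    simp only [hQd, e1, e2]
  have hν : ∀ f : ℝ × ℝ → ℝ≥0∞, ∫⁻ Z, EL (Q Z) f ∂(GW0 μ) = EL (nu μ.toPMF lam h) f := fun f => by
    simp only [hQd, EL_map]
    exact h1 f
  have e : (fun Z : V → ℕ =>
      EL (piL (fun i => PM lam h (sh [i] Z)) (fun _ => 0) (List.range (Z []))) fun m =>
        F (Z []) fun i => (gh h (sh [i] Z), m i)) = fun Z : V → ℕ =>
      EL (piL (fun i => Q (sh [i] Z)) (fun _ => ((0 : ℝ), (0 : ℝ))) (List.range (Z [])))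
        (F (Z [])) := by
    funext Z
    rw [← ann_piL_map (fun i => PM lam h (sh [i] Z)) (fun i m => (gh h (sh [i] Z), m))
      (fun _ => 0) (List.range (Z [])) (F (Z []))]
    exact ann_piL_default _ _ _ _ _ fun x x' hx => hF _ _ _ fun i hi => hx i (List.mem_range.2 hi)
  have hm : Measurable fun Z : V → ℕ =>
      EL (piL (fun i => Q (sh [i] Z)) (fun _ => ((0 : ℝ), (0 : ℝ))) (List.range (Z [])))
        (F (Z [])) :=
    ann_disc_root.measurable (g := fun k Z =>
      EL (piL (fun i => Q (sh [i] Z)) (fun _ => ((0 : ℝ), (0 : ℝ))) (List.range k)) (F k))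
      fun k => ann_meas_children (ann_disc_code h) hQ _ _ _
  rw [e]
  refine ⟨hm, ?_⟩
  rw [ann_disc_root.lint_split _ hm]
  unfold EZ
  rw [EL]
  congr 1
  funext k
  rw [Measure.toPMF_apply,
    ← ann_children μ (ann_disc_code h) hQ hν _ k (List.range k) List.nodup_range (F k)]
  congr 1
  funext Z
  by_cases hk : Z [] = k
  · simp only [hk, if_true]
  · simp only [hk, if_false]

lemma ann_part1 (μ : Measure ℕ) [IsProbabilityMeasure μ] (lam : ℝ) : ∀ (h : ℕ)
    (f : ℝ × ℝ → ℝ≥0∞),
    ∫⁻ Z, EL (PM lam h Z) (fun m => f (gh h Z, m)) ∂(GW0 μ) = EL (nu μ.toPMF lam h) f := by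
  intro h
  induction h with
  | zero =>
    intro f
    simp [PM, gh, nu, EL_pure]
  | succ h ih =>
    intro f
    have := (ann_part2 μ lam h ih (fun k x =>
      EL (stepM lam h (fun i => (x i).1) (fun i => (x i).2) k) fun m =>
        f (Cs (fun i => (x i).1) k / (1 + Cs (fun i => (x i).1) k), m)) (fun k x x' hx => by
      rw [ann_stepM_congr lam h (g := fun i => (x i).1) (g' := fun i => (x' i).1)
        (m := fun i => (x i).2) (m' := fun i => (x' i).2) (fun i hi => by rw [hx i hi])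
        (fun i hi => by rw [hx i hi]),
        ann_Cs_congr (g := fun i => (x i).1) (g' := fun i => (x' i).1)
          (fun i hi => by rw [hx i hi])])).2
    simp only [PM, gh, nu, EL_bind, EL_map]
    exact this

theorem Ann_thm : AnnStmt := by
  intro μ _ lam h
  refine ⟨fun f => ⟨?_, ann_part1 μ lam h f⟩, ann_part2 μ lam h (ann_part1 μ lam h)⟩
  refine ann_meas_of_code (ann_disc_code h) fun Z Z' e => ?_
  obtain ⟨e1, e2⟩ := ann_code_factor lam h Z Z' e
  rw [e1, e2]

/-! ### the environment -/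

lemma ann_gh_succ_pos {h : ℕ} {Z : V → ℕ} :
    0 < gh (h + 1) Z ↔ ∃ i < Z [], 0 < gh h (sh [i] Z) := by
  have h0 := Cs_nonneg (g := fun i => gh h (sh [i] Z)) (k := Z []) fun i _ => (gh_box h _).1
  constructor
  · intro hp
    by_contra hc
    push Not at hc
    have : Cs (fun i => gh h (sh [i] Z)) (Z []) = 0 :=
      Finset.sum_eq_zero fun i hi => le_antisymm (hc i (mem_range.1 hi)) (gh_box h _).1
    simp [gh, this] at hp
  · rintro ⟨i, hi, hp⟩
    have : 0 < Cs (fun i => gh h (sh [i] Z)) (Z []) :=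
      Finset.sum_pos' (fun i _ => (gh_box h _).1) ⟨i, mem_range.2 hi, hp⟩
    unfold gh
    positivity

theorem gh_pos_of_survives : ∀ (h : ℕ) (Z : V → ℕ), Survives Z → 0 < gh h Z
  | 0, _, _ => by simp [gh]
  | h + 1, _, hZ => by
    obtain ⟨i, hi, hs⟩ := survives_iff.1 hZ
    exact ann_gh_succ_pos.2 ⟨i, hi, gh_pos_of_survives h _ hs⟩

theorem gh_pos_anti : ∀ {h : ℕ} {Z : V → ℕ}, 0 < gh (h + 1) Z → 0 < gh h Z
  | 0, _, _ => by simp [gh]
  | _ + 1, _, hZ => by
    obtain ⟨i, hi, hs⟩ := ann_gh_succ_pos.1 hZ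
    exact ann_gh_succ_pos.2 ⟨i, hi, gh_pos_anti hs⟩

lemma ann_nu_box (μ : PMF ℕ) (lam : ℝ) : ∀ h, ∀ x ∈ (nu μ lam h).support, 0 ≤ x.1 ∧ x.1 ≤ 1 := by
  intro h
  induction h with
  | zero =>
    intro x hx
    simp only [nu, PMF.support_pure, Set.mem_singleton_iff] at hx
    simp [hx]
  | succ h ih =>
    intro x hx
    simp only [nu, PMF.mem_support_bind_iff, PMF.mem_support_map_iff] at hx
    obtain ⟨k, -, y, hy, m, -, rfl⟩ := hx
    have := Cs_nonneg (g := fun i => (y i).1) (k := k) fun i hi => (ih _ (supp_EZ hy hi)).1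
    refine ⟨by positivity, ?_⟩
    rw [div_le_one (by positivity)]
    linarith

lemma ann_pos_eq (μ : Measure ℕ) [IsProbabilityMeasure μ] (lam : ℝ) (h : ℕ) :
    EL (nu μ.toPMF lam h) (fun x => if 0 < x.1 then 1 else 0) =
      ∫⁻ Z, (if 0 < gh h Z then 1 else 0) ∂(GW0 μ) := by
  rw [← ann_part1 μ lam h]
  congr 1
  funext Z
  exact EL_const (PM lam h Z) (if 0 < gh h Z then 1 else 0)

theorem env_nu (μ : Measure ℕ) [IsProbabilityMeasure μ] (lam : ℝ) :
    Env μ.toPMF (sv μ) (nu μ.toPMF lam) where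
  box := ann_nu_box _ _
  zero := by
    intro x hx
    simp only [nu, PMF.support_pure, Set.mem_singleton_iff] at hx
    simp [hx]
  succ := by
    intro h f
    simp only [nu, EZ, EL_bind, EL_map, EL_const]
  low := by
    intro h
    rw [ann_pos_eq, sv, ← lintegral_indicator_one ms_survives]
    refine lintegral_mono fun Z => ?_
    by_cases hZ : Survives Z
    · simp [hZ, gh_pos_of_survives h Z hZ]
    · simp [hZ]
  anti := by
    intro h
    rw [ann_pos_eq, ann_pos_eq]
    refine lintegral_mono fun Z => ?_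
    by_cases hZ : 0 < gh (h + 1) Z
    · simp [hZ, gh_pos_anti hZ]
    · simp [hZ]

end Pool.Agent.H109Z.FrogGW
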